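import Pool.Agent.MP_fcd29e_an.H81.Spec

/-! The Hodge star on alternating arrays. -/

set_option autoImplicit false

open Pool.Agent.MP_fcd29e_an.H81

namespace Pool.Agent.MP_fcd29e_an.H27

theorem eps_alt (N : ℕ) : altA (N := N) (q := N) eps := by
  intro J σ
  have h := Matrix.det_permute σ (Matrix.of fun a b => if J a = b then (1 : ℂ) else 0)
  unfold eps
  rw [← h]
  rfl

theorem eps_id (N : ℕ) : eps (N := N) id = 1 := by
  unfold eps
  have : (Matrix.of fun a b : Fin N => if id a = b then (1 : ℂ) else 0) = 1 := by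
    ext a b
    simp [Matrix.one_apply]
  rw [this, Matrix.det_one]

theorem alt_zero {N q : ℕ} {x : (Fin q → Fin N) → ℂ} (hx : altA x) {J : Fin q → Fin N}
    (hJ : ¬ Function.Injective J) : x J = 0 := by
  simp only [Function.Injective, not_forall] at hJ
  obtain ⟨a, b, hab, hne⟩ := hJ
  have h := hx J (Equiv.swap a b)
  have hs : J ∘ Equiv.swap a b = J := by
    funext c
    simp only [Function.comp]
    rcases eq_or_ne c a with rfl | hca
    · rw [Equiv.swap_apply_left, hab]
    · rcases eq_or_ne c b with rfl | hcb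
      · rw [Equiv.swap_apply_right, hab]
      · rw [Equiv.swap_apply_of_ne_of_ne hca hcb]
  rw [hs, Equiv.Perm.sign_swap hne] at h
  simp only [Units.val_neg, Units.val_one, Int.cast_neg, Int.cast_one] at h
  linear_combination h / 2

theorem alt_top {N : ℕ} {y : (Fin N → Fin N) → ℂ} (hy : altA y) (J : Fin N → Fin N) :
    y J = eps J * y id := by
  by_cases hJ : Function.Injective J
  · have hb : Function.Bijective J := (Finite.injective_iff_bijective).1 hJ
    have h1 := hy id (Equiv.ofBijective J hb)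
    have h2 := eps_alt N id (Equiv.ofBijective J hb)
    have e : (id : Fin N → Fin N) ∘ (Equiv.ofBijective J hb) = J := rfl
    rw [e] at h1 h2
    rw [h1, h2, eps_id, mul_one]
  · rw [alt_zero hy hJ, alt_zero (eps_alt N) hJ, zero_mul]

theorem star_inv (h : StmtAL1) (n : ℕ) (V : Fin (n + 1) → ℂ) (j : Fin (n + 1)) :
    (-1) ^ (j : ℕ) * ∑ l, V l * eps (Fin.cons l j.succAbove) = V j := by
  have h1 := ((h (n + 1) n V V).2 eps (eps_alt _)).2.2.2.2 id j
  have e : j.removeNth (id : Fin (n + 1) → Fin (n + 1)) = j.succAbove := rfl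
  rw [e, eps_id] at h1
  rw [Finset.sum_eq_single j]
  · have : id j = j := rfl
    rw [this] at h1
    linear_combination V j * h1
  · intro l _ hl
    obtain ⟨c, hc⟩ := Fin.exists_succAbove_eq hl
    have hni : ¬ Function.Injective (Fin.cons l j.succAbove : Fin (n + 1) → Fin (n + 1)) := by
      intro hi
      have : (0 : Fin (n + 1)) = c.succ := hi (by simp [hc])
      exact (Fin.succ_ne_zero c) this.symm
    rw [alt_zero (eps_alt _) hni, mul_zero]
  · intro hj
    exact absurd (Finset.mem_univ j) hj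

theorem wd_top (h : StmtAL1) (n : ℕ) (x : (Fin n → Fin (n + 1)) → ℂ) (hx : altA x)
    (ξ : Fin (n + 1) → ℂ) (J : Fin (n + 1) → Fin (n + 1)) :
    wdA ξ x J = eps J * ∑ l : Fin (n + 1), ξ l * ((-1) ^ (l : ℕ) * x l.succAbove) := by
  rw [alt_top (((h (n + 1) n ξ ξ).1 x).1 hx) J]
  congr 1
  unfold wdA
  refine Finset.sum_congr rfl fun a _ => ?_
  have e : a.removeNth (id : Fin (n + 1) → Fin (n + 1)) = a.succAbove := rfl
  rw [e]
  simp only [id]
  ring

theorem al2 (h : StmtAL1) : StmtAL2 := by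
  intro n
  refine ⟨fun x hx => ⟨wd_top h n x hx, fun ζ hζ j l => ?_⟩, fun V => ⟨?_, star_inv h n V⟩⟩
  · have h1 := ((h (n + 1) n ζ (Pi.single j 1)).1 x).2.1 hζ l.succAbove
    have h2 := star_inv h n ζ l
    have h3 : ∑ m, ζ m * (Pi.single j (1 : ℂ) : Fin (n + 1) → ℂ) m = ζ j := by
      simp [Pi.single_apply]
    have h4 : ∑ m : Fin (n + 1), (Pi.single j (1 : ℂ) : Fin (n + 1) → ℂ) m *
        ((-1) ^ (m : ℕ) * x m.succAbove) = (-1) ^ (j : ℕ) * x j.succAbove := by
      simp [Pi.single_apply]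
    rw [h3] at h1
    unfold ibA at h1
    simp only [wd_top h n x hx, h4] at h1
    simp only [← mul_assoc, ← Finset.sum_mul] at h1
    linear_combination (-1) ^ (j : ℕ) * x j.succAbove * h2 - (-1) ^ (l : ℕ) * h1
  · exact ((h (n + 1) n V V).2 eps (eps_alt _)).1

end Pool.Agent.MP_fcd29e_an.H27
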