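import Pool.Agent.MP_fcd29e_an.H11.CS

/-!
The sets `K` and `S`: cones, closedness, discs.
-/

set_option autoImplicit false

open Complex Set Filter Topology Metric Pool.Agent.MP_fcd29e_an.H81
open Pool.Agent.MP_fcd29e_an.H11

namespace Pool.Agent.MP_fcd29e_an.H27

/-- The cone over a compact set that misses the origin is closed. -/
lemma closed_cone {X : Type} [NormedAddCommGroup X] [NormedSpace ℂ X] {C : Set X}
    (hC : IsCompact C) (h0 : (0 : X) ∉ C) : IsClosed {Z | ∃ c : ℂ, ∃ y ∈ C, Z = c • y} := by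
  obtain ⟨m, hm, hmC⟩ : ∃ m : ℝ, 0 < m ∧ ∀ y ∈ C, m ≤ ‖y‖ := by
    rcases C.eq_empty_or_nonempty with rfl | hne
    · exact ⟨1, one_pos, by simp⟩
    · obtain ⟨y, hy, hmin⟩ := hC.exists_isMinOn hne continuous_norm.continuousOn
      exact ⟨‖y‖, norm_pos_iff.2 fun h => h0 (h ▸ hy), fun w hw => hmin hw⟩
  refine isClosed_of_closure_subset fun Z hZ => ?_
  have hT : IsCompact ((fun p : ℂ × X => p.1 • p.2) '' (closedBall (0 : ℂ) ((‖Z‖ + 1) / m) ×ˢ C)) :=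
    ((isCompact_closedBall _ _).prod hC).image (continuous_fst.smul continuous_snd)
  have h1 : Z ∈ closure (ball Z 1 ∩ {Z | ∃ c : ℂ, ∃ y ∈ C, Z = c • y}) :=
    isOpen_ball.inter_closure ⟨mem_ball_self one_pos, hZ⟩
  have h2 : ball Z 1 ∩ {Z | ∃ c : ℂ, ∃ y ∈ C, Z = c • y} ⊆
      (fun p : ℂ × X => p.1 • p.2) '' (closedBall (0 : ℂ) ((‖Z‖ + 1) / m) ×ˢ C) := by
    rintro W ⟨hW, c, y, hy, rfl⟩
    refine ⟨(c, y), ⟨?_, hy⟩, rfl⟩
    rw [mem_closedBall_zero_iff, le_div_iff₀ hm]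
    have h3 : ‖c • y‖ ≤ ‖Z‖ + 1 := by
      have h4 := mem_ball_iff_norm.1 hW
      have h5 := norm_sub_norm_le (c • y) Z
      linarith
    rw [norm_smul] at h3
    exact (mul_le_mul_of_nonneg_left (hmC y hy) (norm_nonneg c)).trans h3
  obtain ⟨p, hp, rfl⟩ := (hT.isClosed.closure_subset_iff.2 h2) h1
  exact ⟨p.1, p.2, hp.2, rfl⟩

theorem skc (hGR : SGR) : SKC := by
  intro ι _ hι N J δ _ d hd
  have hne : ∀ i, ∀ z ∈ d.D i, ∀ x : V ι, x ≠ 0 → d.Φ i z x ≠ 0 := fun i z hz x hx h =>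
    hx (hd.inj i z hz (h.trans (map_zero _).symm))
  obtain ⟨i₀, z₀, hz₀⟩ := hd.ne
  obtain ⟨x₀, hx₀⟩ := (hGR.cpt ι).2 hι
  have hB : ∀ (c : ℂ) (x : V ι), B x x = 0 → B (c • x) (c • x) = 0 := by
    intro c x hx
    rw [(hGR.bil ι x (c • x) (c • x) c).2.2.2.1, (hGR.bil ι x (c • x) x c).1,
      (hGR.bil ι x x x c).2.2.2.1, hx, mul_zero, mul_zero]
  refine ⟨⟨_, i₀, z₀, hz₀, x₀, hx₀, 1, one_ne_zero, rfl⟩, ⟨?_, ?_⟩, ⟨?_, ?_⟩, ?_, ?_, ?_, ?_⟩
  · rintro ⟨i, z, hz, x, hx, c, hc, h⟩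
    exact smul_ne_zero hc (hne i z hz x (hGR.cn ι x hx).1) h.symm
  · rintro c hc _ ⟨i, z, hz, x, hx, c', hc', rfl⟩
    exact ⟨i, z, hz, x, hx, c * c', mul_ne_zero hc hc', smul_smul _ _ _⟩
  · rintro ⟨i, z, hz, x, hx, -, h⟩
    exact hne i z hz x hx h.symm
  · rintro c hc _ ⟨i, z, hz, x, hx, hb, rfl⟩
    exact ⟨i, z, hz, c • x, smul_ne_zero hc hx, hB c x hb, (map_smul _ _ _).symm⟩
  · rintro _ ⟨i, z, hz, x, hx, c, hc, rfl⟩
    exact ⟨i, z, hz, c • x, smul_ne_zero hc (hGR.cn ι x hx).1, hB c x hx.2.1,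
      (map_smul _ _ _).symm⟩
  · obtain ⟨s, D', hs, hcov⟩ := hd.cover
    let C : Set (E N) := ⋃ j ∈ s, (fun p : ℂ × V ι => d.Φ j p.1 p.2) ''
      (D' j ×ˢ (cone ι ∩ {x | x.1 = 1}))
    have hC : IsCompact C := by
      refine s.isCompact_biUnion fun j hj => ?_
      refine ((hs j hj).1.prod (hGR.cpt ι).1).image_of_continuousOn ?_
      refine ContinuousOn.clm_apply (fun p hp => ?_) continuousOn_snd
      exact ((hd.hΦ j p.1 ((hs j hj).2 hp.1)).continuousAt.comp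
        continuousAt_fst).continuousWithinAt
    have hmem : ∀ y, y ∈ C ↔ ∃ j ∈ s, ∃ z ∈ D' j, ∃ x ∈ cone ι, x.1 = 1 ∧ y = d.Φ j z x := by
      intro y
      constructor
      · intro hy
        obtain ⟨j, hj, p, hp, rfl⟩ := mem_iUnion₂.1 hy
        exact ⟨j, hj, p.1, hp.1, p.2, hp.2.1, hp.2.2, rfl⟩
      · rintro ⟨j, hj, z, hz, x, hx, h1, rfl⟩
        exact mem_iUnion₂.2 ⟨j, hj, (z, x), ⟨hz, hx, h1⟩, rfl⟩
    have h0 : (0 : E N) ∉ C := by
      rw [hmem]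
      rintro ⟨j, hj, z, hz, x, hx, -, h⟩
      exact hne j z ((hs j hj).2 hz) x (hGR.cn ι x hx).1 h.symm
    have hEq : d.K ∪ {0} = {Z | ∃ c : ℂ, ∃ y ∈ C, Z = c • y} ∪ {0} := by
      refine Subset.antisymm (union_subset_union_left _ ?_) ?_
      · rintro _ ⟨i, z, hz, x, hx, c, -, rfl⟩
        obtain ⟨j, hj, z', hz', c', G, -, hG, hΦ, -⟩ := hcov i z hz
        have hGx := hG.fut x hx
        have hl : 0 < (G x).1.re := hGx.2.2
        have hl' : (((G x).1.re : ℝ) : ℂ) ≠ 0 := ofReal_ne_zero.2 hl.ne'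
        refine ⟨c * c' * ((G x).1.re : ℝ), d.Φ j z' (((((G x).1.re)⁻¹ : ℝ) : ℂ) • G x),
          (hmem _).2 ⟨j, hj, z', hz', _, (hGR.cn ι _ hGx).2.2.2.1 _ (inv_pos.2 hl), ?_, rfl⟩, ?_⟩
        · rw [Prod.smul_fst, smul_eq_mul, ofReal_inv]
          nth_rewrite 2 [(hGR.cn ι _ hGx).2.2.1]
          exact inv_mul_cancel₀ hl'
        · rw [hΦ, map_smul, smul_smul, smul_smul, ofReal_inv, mul_assoc (c * c'),
            mul_inv_cancel₀ hl', mul_one]
      · rintro _ (⟨c, y, hy, rfl⟩ | h)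
        · by_cases hc : c = 0
          · right; simp [hc]
          · obtain ⟨j, hj, z, hz, x, hx, -, rfl⟩ := (hmem y).1 hy
            exact Or.inl ⟨j, z, (hs j hj).2 hz, x, hx, c, hc, rfl⟩
        · exact Or.inr h
    rw [hEq]
    exact (closed_cone hC h0).union isClosed_singleton
  · obtain ⟨v, hv⟩ := hd.nz i₀ z₀ hz₀ x₀ hx₀
    refine ⟨v, ?_, ?_⟩
    · rintro rfl
      exact hv (by simp)
    · rintro ⟨i, z, hz, x, -, c, -, rfl⟩
      exact hv (by simp [hd.hζ _ i z hz])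
  · rintro _ ⟨i, z, hz, x, hx, c, hc, rfl⟩
    obtain ⟨r, hr, hsub⟩ := Metric.isOpen_iff.1 (hd.op i) z hz
    have hin : ∀ y ∈ ball (0 : ℂ) r, z + y ∈ d.D i := fun y hy =>
      hsub (by simpa [mem_ball, dist_eq_norm] using hy)
    have hder : ∀ y ∈ ball (0 : ℂ) r, HasDerivAt (fun y => c • d.Φ i (z + y) x)
        (c • deriv (d.Φ i) (z + y) x) y := by
      intro y hy
      have h1 := ((hd.hΦ i _ (hin y hy)).differentiableAt.hasDerivAt).comp_const_add z y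
      have h2 := h1.clm_apply (hasDerivAt_const y x)
      rw [map_zero, add_zero] at h2
      exact h2.const_smul c
    refine ⟨r, fun y => c • d.Φ i (z + y) x, hr,
      fun y hy => (hder y hy).differentiableAt.differentiableWithinAt, by simp,
      fun y hy => ⟨i, z + y, hin y hy, x, hx, c, hc, rfl⟩, fun c' h => ?_⟩
    rw [(hder 0 (mem_ball_self hr)).deriv, add_zero, smul_comm] at h
    refine hd.imm i z hz x hx (c' • x) ?_
    rw [map_smul]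
    exact smul_right_injective _ hc h

end Pool.Agent.MP_fcd29e_an.H27
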