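import Pool.Agent.MP_fcd29e_an.H81.Spec2

/-! Proximal normals of a minimal set without weight function. -/

set_option autoImplicit false

open Pool.Agent.MP_fcd29e_an.H81 MeasureTheory Complex Set Filter Topology Metric
open scoped ContDiff ComplexConjugate ENNReal NNReal

namespace Pool.Agent.MP_fcd29e_an.H27

noncomputable section

variable {N : ℕ}

theorem ip_eq (x z : E N) : inner ℂ x z = ∑ k, conj (x k) * z k := by
  simp [PiLp.inner_apply, mul_comm]

theorem proj_sq (y z : E N) (hz : z ≠ 0) :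
    ‖y - (inner ℂ z y / ((‖z‖ ^ 2 : ℝ) : ℂ)) • z‖ ^ 2 = ‖y‖ ^ 2 - ‖inner ℂ z y‖ ^ 2 / ‖z‖ ^ 2 := by
  have hn : ‖z‖ ≠ 0 := norm_ne_zero_iff.2 hz
  rw [norm_sub_sq (𝕜 := ℂ), inner_smul_right, norm_smul, ← inner_conj_symm y z]
  have h1 : inner ℂ z y / ((‖z‖ ^ 2 : ℝ) : ℂ) * conj (inner ℂ z y) =
      ((‖inner ℂ z y‖ ^ 2 / ‖z‖ ^ 2 : ℝ) : ℂ) := by
    rw [div_mul_eq_mul_div, Complex.mul_conj, Complex.normSq_eq_norm_sq]
    push_cast
    rfl
  rw [h1, norm_div, Complex.norm_real, Real.norm_of_nonneg (by positivity)]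
  simp only [RCLike.re_to_complex, Complex.ofReal_re]
  field_simp
  ring

/-- The auxiliary function. -/
def Fq (x p z : E N) : ℝ := (‖inner ℂ x z‖ ^ 2 + ‖inner ℂ p z‖ ^ 2) / ‖z‖ ^ 2

theorem ip_smooth (x : E N) : ContDiff ℝ ∞ fun z : E N => inner ℂ x z :=
  ((innerSL ℂ x).restrictScalars ℝ).contDiff

theorem Fq_smooth (x p : E N) {z : E N} (hz : z ≠ 0) : ContDiffAt ℝ ∞ (Fq x p) z := by
  unfold Fq
  refine ContDiffAt.div ?_ (contDiff_norm_sq ℝ).contDiffAt (pow_ne_zero 2 (norm_ne_zero_iff.2 hz))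
  exact (((ip_smooth x).contDiffAt).norm_sq ℝ).add (((ip_smooth p).contDiffAt).norm_sq ℝ)

theorem Fq_inv (x p : E N) {c : ℂ} (hc : c ≠ 0) (z : E N) : Fq x p (c • z) = Fq x p z := by
  unfold Fq
  have hn : ‖c‖ ≠ 0 := norm_ne_zero_iff.2 hc
  rw [inner_smul_right, inner_smul_right, norm_mul, norm_mul, norm_smul, mul_pow, mul_pow, mul_pow,
    ← mul_add, mul_div_mul_left _ _ (pow_ne_zero 2 hn)]

theorem dz_ip (x z : E N) (j : Fin N) : dz j (fun w : E N => inner ℂ x w) z = conj (x j) := by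
  have hc : ∀ k, DifferentiableAt ℝ (fun w : E N => w k) z := fun k =>
    ContDiffAt.da (contDiff_coord k).contDiffAt
  simp only [ip_eq]
  rw [dz_sum j _ fun k _ => (hc k).const_mul _]
  simp [dz_const_mul j _ (hc _), dz_coord]

theorem dzb_ip (x z : E N) (j : Fin N) : dzb j (fun w : E N => inner ℂ x w) z = 0 := by
  have hc : ∀ k, DifferentiableAt ℝ (fun w : E N => w k) z := fun k =>
    ContDiffAt.da (contDiff_coord k).contDiffAt
  simp only [ip_eq]
  rw [dzb_sum j _ fun k _ => (hc k).const_mul _]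
  simp [dzb_const_mul j _ (hc _), dzb_coord]

theorem dz_ipsq (x z : E N) (j : Fin N) :
    dz j (fun w : E N => inner ℂ x w * conj (inner ℂ x w)) z = conj (x j) * conj (inner ℂ x z) := by
  have hd : DifferentiableAt ℝ (fun w : E N => inner ℂ x w) z := ContDiffAt.da (ip_smooth x).contDiffAt
  rw [dz_mul j hd (differentiableAt_conj hd), dz_ip, dz_conj, dzb_ip]
  simp

theorem dz_Fq (x p : E N) {z : E N} (hz : z ≠ 0) (j : Fin N) :
    dz j (cx (Fq x p)) z * ((‖z‖ ^ 2 : ℝ) : ℂ) + (Fq x p z : ℂ) * conj (z j) =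
      conj (x j) * conj (inner ℂ x z) + conj (p j) * conj (inner ℂ p z) := by
  have h1 : DifferentiableAt ℝ (cx (Fq x p)) z := ContDiffAt.da (contDiffAt_cx (Fq_smooth x p hz))
  have h2 : DifferentiableAt ℝ (cx fun w : E N => ‖w‖ ^ 2) z :=
    ContDiffAt.da (contDiffAt_cx (contDiff_norm_sq ℝ).contDiffAt)
  have hd : ∀ y : E N, DifferentiableAt ℝ
      (fun w : E N => inner ℂ y w * conj (inner ℂ y w)) z := fun y =>
    (ContDiffAt.da (ip_smooth y).contDiffAt).fun_mul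
      (differentiableAt_conj (ContDiffAt.da (ip_smooth y).contDiffAt))
  have h3 := dz_mul j h1 h2
  rw [dz_normSq] at h3
  have h4 : (fun w => cx (Fq x p) w * (cx fun w : E N => ‖w‖ ^ 2) w) =ᶠ[𝓝 z]
      fun w : E N => inner ℂ x w * conj (inner ℂ x w) + inner ℂ p w * conj (inner ℂ p w) := by
    filter_upwards [isOpen_E0.mem_nhds hz] with w hw
    have hn : ‖w‖ ≠ 0 := norm_ne_zero_iff.2 hw
    simp only [cx, Fq, Complex.mul_conj, Complex.normSq_eq_norm_sq]
    rw [← Complex.ofReal_mul, div_mul_cancel₀ _ (pow_ne_zero 2 hn)]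
    push_cast
    rfl
  rw [dz_congr h4, dz_add j (hd x) (hd p), dz_ipsq, dz_ipsq] at h3
  exact h3.symm

theorem Lf_Fq (ρ : E N → ℝ) (x p : E N) {z : E N} (hz : z ≠ 0) (c : Fin N)
    (h0 : ∑ j, conj (z j) * PP ρ z j c = 0) :
    Lf (lc ρ c) (cx (Fq x p)) z * ((‖z‖ ^ 2 : ℝ) : ℂ) =
      conj (inner ℂ x z) * ∑ j, conj (x j) * PP ρ z j c +
        conj (inner ℂ p z) * ∑ j, conj (p j) * PP ρ z j c := by
  have h : ∀ j, PP ρ z j c * dz j (cx (Fq x p)) z * ((‖z‖ ^ 2 : ℝ) : ℂ) =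
      conj (inner ℂ x z) * (conj (x j) * PP ρ z j c) + conj (inner ℂ p z) * (conj (p j) * PP ρ z j c) -
        (Fq x p z : ℂ) * (conj (z j) * PP ρ z j c) := fun j => by
    linear_combination PP ρ z j c * dz_Fq x p hz j
  unfold Lf lc
  rw [Finset.sum_mul, Finset.sum_congr rfl fun j _ => h j, Finset.sum_sub_distrib,
    Finset.sum_add_distrib, ← Finset.mul_sum, ← Finset.mul_sum, ← Finset.mul_sum, h0]
  ring

/-- Gluing a weight on a sublevel set with a convex function of `F`. -/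
theorem glue (L : Lv0) {ρ : E N → ℝ} (hρ : Dom ρ) {K : Set (E N)} (hK : KS ρ K)
    {F φ : E N → ℝ} (hF : SI ρ F) (hφ : SI ρ φ) (ℓ : ℝ)
    (h1 : ∀ z ∈ K, F z ≤ ℓ → 0 < trH ρ φ z)
    (h2 : ∀ z ∈ K, ‖z‖ = 1 → ℓ ≤ F z → 0 < ∑ c, ‖Lf (lc ρ c) (cx F) z‖ ^ 2) : ¬ NoPhi ρ K := by
  obtain ⟨hop, -, -, hreg, htr, hsc, hbd⟩ := (L.pf N).2.2.2 ρ hρ
  have hne : ∀ z ∈ K, z ≠ 0 := fun z hz h => hK.cone.1 (h ▸ hz)
  have hR : ∀ z ∈ K, z ∈ Reg ρ := fun z hz => (hbd z (hne z hz) (hK.bd z hz)).1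
  have hat : ∀ {ψ : E N → ℝ}, SI ρ ψ → ∀ z ∈ K, ContDiffAt ℝ ∞ ψ z := fun hψ z hz =>
    hψ.1.contDiffAt (hop.mem_nhds (hR z hz))
  set K1 : Set (E N) := insert 0 K ∩ sphere 0 1 with hK1
  have hc1 : IsCompact K1 := (isCompact_sphere 0 1).inter_left hK.closed
  have hm1 : ∀ z ∈ K1, z ∈ K ∧ ‖z‖ = 1 := fun z hz => by
    have h1 : ‖z‖ = 1 := by simpa using hz.2
    refine ⟨hz.1.resolve_left ?_, h1⟩
    rintro rfl
    simp at h1
  set S : E N → ℝ := fun z => ∑ c, ‖Lf (lc ρ c) (cx F) z‖ ^ 2 with hS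
  have cF : ContinuousOn F K1 := fun z hz =>
    (hat hF z (hm1 z hz).1).continuousAt.continuousWithinAt
  have ctr : ∀ {ψ : E N → ℝ}, SI ρ ψ → ContinuousOn (trH ρ ψ) K1 := fun hψ z hz =>
    (htr z (hR z (hm1 z hz).1) _ (hat hψ z (hm1 z hz).1)).2.2.1.continuousAt.continuousWithinAt
  have cS : ContinuousOn S K1 := fun z hz => by
    refine ContinuousAt.continuousWithinAt ?_
    refine tendsto_finsetSum _ fun c _ => ContinuousAt.pow (ContinuousAt.norm ?_) 2
    unfold Lf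
    refine tendsto_finsetSum _ fun j _ => ContinuousAt.mul ?_ ?_
    · exact ((hreg z (hR z (hm1 z hz).1)).2.2.2.2.1 c j).continuousAt
    · exact (contDiffAt_dz j (contDiffAt_cx (hat hF z (hm1 z hz).1))).continuousAt
  obtain ⟨a, ha, haK⟩ := (hc1.of_isClosed_subset
    (cF.preimage_isClosed_of_isClosed hc1.isClosed (isClosed_Iic (a := ℓ)))
    inter_subset_left).exists_forall_le' ((ctr hφ).mono inter_subset_left)
    (a := 0) fun z hz => h1 z (hm1 z hz.1).1 hz.2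
  obtain ⟨b, hb, hbK⟩ := (hc1.of_isClosed_subset
    (cF.preimage_isClosed_of_isClosed hc1.isClosed (isClosed_Ici (a := ℓ)))
    inter_subset_left).exists_forall_le' (cS.mono inter_subset_left)
    (a := 0) fun z hz => h2 z (hm1 z hz.1).1 (hm1 z hz.1).2 hz.2
  obtain ⟨C1, hC1⟩ := hc1.exists_bound_of_continuousOn (ctr hφ)
  obtain ⟨C2, hC2⟩ := hc1.exists_bound_of_continuousOn (ctr hF)
  set C : ℝ := |C1| + |C2| + 1 with hC
  have hC0 : 0 < C := by positivity
  set μ : ℝ := 1 + C / a + 2 * C / b with hμ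
  have hμ1 : 1 ≤ μ := by
    have : 0 ≤ C / a + 2 * C / b := by positivity
    linarith
  have hμ0 : 0 < μ := by linarith
  have hμa : C < μ * a := by
    have h3 : 0 < 2 * C / b * a := by positivity
    have : μ * a = a + C + 2 * C / b * a := by rw [hμ]; field_simp
    linarith
  have hμb : 2 * C < μ * b := by
    have h3 : 0 < C / a * b := by positivity
    have : μ * b = b + C / a * b + 2 * C := by rw [hμ]; field_simp
    linarith
  set χ : ℝ → ℝ := fun s => (μ ^ 3)⁻¹ * Real.exp (μ ^ 2 * (s - ℓ)) with hχ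
  have hχs : ContDiff ℝ ∞ χ := by
    rw [hχ]
    fun_prop
  have hd0 : ∀ (B s : ℝ), HasDerivAt (fun s => B * Real.exp (μ ^ 2 * (s - ℓ)))
      (B * μ ^ 2 * Real.exp (μ ^ 2 * (s - ℓ))) s := fun B s => by
    have := ((((hasDerivAt_id s).sub_const ℓ).const_mul (μ ^ 2)).exp).const_mul B
    refine this.congr_deriv ?_
    simp only [id]
    ring
  have hd1 : deriv χ = fun s => (μ ^ 3)⁻¹ * μ ^ 2 * Real.exp (μ ^ 2 * (s - ℓ)) :=
    funext fun s => (hd0 _ s).deriv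
  have hd2 : ∀ s, deriv (deriv χ) s = μ * Real.exp (μ ^ 2 * (s - ℓ)) := fun s => by
    rw [hd1, (hd0 _ s).deriv]
    field_simp
  have hSI : SI ρ fun y => 1 * φ y + 1 * χ (F y) := by
    refine ⟨(contDiffOn_const.mul hφ.1).add (contDiffOn_const.mul
      (hχs.comp_contDiffOn hF.1)), fun c hc z => ?_⟩
    simp only [hφ.2 c hc z, hF.2 c hc z]
  have hpos : ∀ z ∈ K1, 0 < trH ρ (fun y => 1 * φ y + 1 * χ (F y)) z := fun z hz => by
    have hzK := (hm1 z hz).1
    have e1 := (htr z (hR z hzK) φ (hat hφ z hzK)).2.2.2.1 (fun y => χ (F y))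
      (hχs.contDiffAt.comp z (hat hF z hzK)) 1 1
    have e2 := (htr z (hR z hzK) F (hat hF z hzK)).2.2.2.2 χ hχs.contDiffAt
    rw [e1, e2, hd2, hd1]
    have hS0 : 0 ≤ S z := Finset.sum_nonneg fun c _ => by positivity
    change 0 < 1 * trH ρ φ z + 1 * ((μ ^ 3)⁻¹ * μ ^ 2 * Real.exp (μ ^ 2 * (F z - ℓ)) * trH ρ F z +
      μ * Real.exp (μ ^ 2 * (F z - ℓ)) * S z)
    have b1 : -C < trH ρ φ z := by
      have := hC1 z hz
      rw [Real.norm_eq_abs] at this
      have h5 := neg_abs_le (trH ρ φ z)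
      have h6 := le_abs_self C1
      have h7 := abs_nonneg C2
      linarith
    have b2 : -C ≤ trH ρ F z := by
      have := hC2 z hz
      rw [Real.norm_eq_abs] at this
      have h5 := neg_abs_le (trH ρ F z)
      have h6 := le_abs_self C2
      have h7 := abs_nonneg C1
      linarith
    set e := Real.exp (μ ^ 2 * (F z - ℓ)) with he
    have he0 : 0 < e := Real.exp_pos _
    have hmul : (μ ^ 3)⁻¹ * μ ^ 2 = μ⁻¹ := by field_simp
    rw [hmul]
    refine (mul_pos_iff_of_pos_left hμ0).1 ?_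
    have hexp : μ * (1 * trH ρ φ z + 1 * (μ⁻¹ * e * trH ρ F z + μ * e * S z)) =
        μ * trH ρ φ z + e * trH ρ F z + μ ^ 2 * e * S z := by field_simp; ring
    rw [hexp]
    rcases le_total (F z) ℓ with hl | hl
    · have h3 := haK z ⟨hz, hl⟩
      have h4 : e ≤ 1 := Real.exp_le_one_iff.2 (mul_nonpos_of_nonneg_of_nonpos (by positivity)
        (by linarith))
      have h5 : 0 ≤ μ ^ 2 * e * S z := by positivity
      have h6 : μ * a ≤ μ * trH ρ φ z := mul_le_mul_of_nonneg_left h3 hμ0.le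
      have h7 : e * (-C) ≤ e * trH ρ F z := mul_le_mul_of_nonneg_left b2 he0.le
      nlinarith
    · have h3 := hbK z ⟨hz, hl⟩
      have h4 : 1 ≤ e := Real.one_le_exp (mul_nonneg (by positivity) (by linarith))
      have h5 : μ ^ 2 * e * b ≤ μ ^ 2 * e * S z := mul_le_mul_of_nonneg_left h3 (by positivity)
      have h6 : μ * (-C) < μ * trH ρ φ z := mul_lt_mul_of_pos_left b1 hμ0
      have h7 : e * (-C) ≤ e * trH ρ F z := mul_le_mul_of_nonneg_left b2 he0.le
      have h8 : μ * e * (2 * C) ≤ μ * e * (μ * b) :=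
        mul_le_mul_of_nonneg_left hμb.le (by positivity)
      have h9 : μ * C ≤ μ * e * C := by
        have : μ * 1 * C ≤ μ * e * C := by gcongr
        linarith
      have h10 : e * C ≤ μ * e * C := by
        have : 1 * e * C ≤ μ * e * C := by gcongr
        linarith
      nlinarith
  intro hno
  refine hno ⟨_, hSI, fun z hz => ?_⟩
  have hn : ‖z‖ ≠ 0 := norm_ne_zero_iff.2 (hne z hz)
  have hc : ((‖z‖⁻¹ : ℝ) : ℂ) ≠ 0 := by exact_mod_cast inv_ne_zero hn
  have hz1 : ((‖z‖⁻¹ : ℝ) : ℂ) • z ∈ K1 := by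
    refine ⟨Or.inr (hK.cone.2 _ hc z hz), ?_⟩
    simp [norm_smul, hn]
  have h3 := hpos _ hz1
  rw [hsc _ hSI _ hc z (hR z hz)] at h3
  refine (mul_pos_iff_of_pos_left ?_).1 h3
  have := norm_pos_iff.2 hc
  positivity

theorem d1 (L : Lv0) : StmtD1 := by
  intro N ρ K hρ hM x p hp hd w hw
  obtain ⟨hK, hno, hmin⟩ := hM
  obtain ⟨hop, -, hz0, hreg, -, -, hbd⟩ := (L.pf N).2.2.2 ρ hρ
  have hne : ∀ z ∈ K, z ≠ 0 := fun z hz h => hK.cone.1 (h ▸ hz)
  have hR : ∀ z ∈ K, z ∈ Reg ρ := fun z hz => (hbd z (hne z hz) (hK.bd z hz)).1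
  have hp0 : p ≠ 0 := hne p hp
  have hpn : 0 < ‖p‖ ^ 2 := pow_pos (norm_pos_iff.2 hp0) 2
  have hline : ∀ z ∈ K, ∀ c : ℂ, ‖x - p‖ ≤ ‖x - c • z‖ := fun z hz c => by
    refine (dense_compl_singleton (0 : ℂ)).induction (P := fun c => ‖x - p‖ ≤ ‖x - c • z‖)
      (fun c hc => ?_) (isClosed_le continuous_const (by fun_prop)) c
    rw [← dist_eq_norm, ← dist_eq_norm, hd]
    exact infDist_le_dist_of_mem (hK.cone.2 c hc z hz)
  have hort : inner ℂ p (x - p) = 0 := by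
    have h1 := hline p hp (1 + inner ℂ p (x - p) / ((‖p‖ ^ 2 : ℝ) : ℂ))
    have h2 := proj_sq (x - p) p hp0
    rw [add_smul, one_smul, ← sub_sub] at h1
    have h3 := pow_le_pow_left₀ (norm_nonneg _) h1 2
    rw [h2] at h3
    have h4 : ‖inner ℂ p (x - p)‖ ^ 2 / ‖p‖ ^ 2 ≤ 0 := by linarith
    have h5 : ‖inner ℂ p (x - p)‖ ^ 2 ≤ 0 := by
      by_contra h
      exact absurd h4 (not_le.2 (div_pos (not_le.1 h) hpn))
    exact norm_eq_zero.1 (pow_eq_zero_iff two_ne_zero |>.1 (le_antisymm h5 (by positivity)))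
  have hpp : inner ℂ p p = ((‖p‖ ^ 2 : ℝ) : ℂ) := by
    rw [inner_self_eq_norm_sq_to_K]
    push_cast
    rfl
  have hpx : inner ℂ p x = ((‖p‖ ^ 2 : ℝ) : ℂ) := by
    rw [inner_sub_right, sub_eq_zero] at hort
    rw [hort, hpp]
  have hxp : inner ℂ x p = ((‖p‖ ^ 2 : ℝ) : ℂ) := by
    rw [← inner_conj_symm, hpx, Complex.conj_ofReal]
  have hpy : ‖x‖ ^ 2 = ‖x - p‖ ^ 2 + ‖p‖ ^ 2 := by
    have := norm_add_sq (𝕜 := ℂ) p (x - p)
    rw [hort, add_sub_cancel] at this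
    simp only [map_zero, mul_zero, add_zero] at this
    linarith
  have hFx : ∀ z ∈ K, ‖inner ℂ x z‖ ^ 2 / ‖z‖ ^ 2 ≤ ‖p‖ ^ 2 := fun z hz => by
    have h1 := pow_le_pow_left₀ (norm_nonneg _) (hline z hz (inner ℂ z x / ((‖z‖ ^ 2 : ℝ) : ℂ))) 2
    rw [proj_sq x z (hne z hz), norm_inner_symm] at h1
    linarith
  have hA : ∀ c, ∑ j, conj (x j) * PP ρ p j c = 0 := by
    intro c
    by_contra hc
    have hSI : SI ρ (Fq x p) :=
      ⟨fun z hz => (Fq_smooth x p hz.1).contDiffWithinAt, fun c hc z => Fq_inv x p hc z⟩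
    set S : E N → ℝ := fun z => ∑ c, ‖Lf (lc ρ c) (cx (Fq x p)) z‖ ^ 2 with hS
    have hS0 : ∀ z, 0 ≤ S z := fun z => Finset.sum_nonneg fun c _ => by positivity
    have hlt : ∀ z ∈ K, S z ≤ 0 → Fq x p z < 2 * ‖p‖ ^ 2 := fun z hz hs => by
      by_contra hge
      have hzn : 0 < ‖z‖ ^ 2 := pow_pos (norm_pos_iff.2 (hne z hz)) 2
      have h1 := hFx z hz
      have h2 : ‖p‖ ^ 2 ≤ ‖inner ℂ p z‖ ^ 2 / ‖z‖ ^ 2 := by
        have : Fq x p z = ‖inner ℂ x z‖ ^ 2 / ‖z‖ ^ 2 + ‖inner ℂ p z‖ ^ 2 / ‖z‖ ^ 2 := add_div _ _ _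
        linarith [not_lt.1 hge]
      have h3 := proj_sq z p hp0
      have h4 : ‖z‖ ^ 2 ≤ ‖inner ℂ p z‖ ^ 2 / ‖p‖ ^ 2 := by
        rw [le_div_iff₀ hzn] at h2
        rw [le_div_iff₀ hpn]
        linarith
      obtain ⟨t, ht⟩ : ∃ t : ℂ, z = t • p := by
        refine ⟨_, sub_eq_zero.1 (norm_eq_zero.1 (pow_eq_zero_iff two_ne_zero |>.1
          (le_antisymm (h3.trans_le (by linarith)) (by positivity))))⟩
      have ht0 : t ≠ 0 := by
        rintro rfl
        exact hne z hz (by rw [ht, zero_smul])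
      have h5 := Lf_Fq ρ x p (hne z hz) c ((hreg z (hR z hz)).2.2.2.2.2.2.1 c).2.1
      have h6 : Lf (lc ρ c) (cx (Fq x p)) z = 0 := by
        have h7 := (Finset.sum_eq_zero_iff_of_nonneg (fun c _ => by positivity)).1
          (le_antisymm hs (hS0 z)) c (Finset.mem_univ c)
        exact norm_eq_zero.1 (pow_eq_zero_iff two_ne_zero |>.1 h7)
      have h8 : ∀ j k, PP ρ z j k = PP ρ p j k := by
        rw [ht]
        exact ((hz0 p hp0).2.2.2.1 t ht0).2.2
      simp only [h8] at h5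
      rw [h6, ((hreg p (hR p hp)).2.2.2.2.2.2.1 c).2.1, zero_mul, mul_zero, add_zero, ht,
        inner_smul_right, hxp] at h5
      refine mul_ne_zero ?_ hc h5.symm
      rw [map_ne_zero]
      exact mul_ne_zero ht0 (by exact_mod_cast hpn.ne')
    set K1 : Set (E N) := insert 0 K ∩ sphere 0 1 with hK1
    have hc1 : IsCompact K1 := (isCompact_sphere 0 1).inter_left hK.closed
    have hm1 : ∀ z ∈ K1, z ∈ K := fun z hz => by
      refine hz.1.resolve_left ?_
      rintro rfl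
      simpa using hz.2
    have cF : ContinuousOn (Fq x p) K1 := fun z hz =>
      (Fq_smooth x p (hne z (hm1 z hz))).continuousAt.continuousWithinAt
    have cS : ContinuousOn S K1 := fun z hz => by
      refine ContinuousAt.continuousWithinAt ?_
      refine tendsto_finsetSum _ fun c _ => ContinuousAt.pow (ContinuousAt.norm ?_) 2
      unfold Lf
      refine tendsto_finsetSum _ fun j _ => ContinuousAt.mul ?_ ?_
      · exact ((hreg z (hR z (hm1 z hz))).2.2.2.2.1 c j).continuousAt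
      · exact (contDiffAt_dz j (contDiffAt_cx (Fq_smooth x p (hne z (hm1 z hz))))).continuousAt
    obtain ⟨δ, hδ, hδK⟩ := (hc1.of_isClosed_subset
      (cS.preimage_isClosed_of_isClosed hc1.isClosed (isClosed_Iic (a := 0)))
      inter_subset_left).exists_forall_le' (f := fun z => 2 * ‖p‖ ^ 2 - Fq x p z)
      ((continuousOn_const.sub cF).mono inter_subset_left)
      (a := 0) fun z hz => sub_pos.2 (hlt z (hm1 z hz.1) hz.2)
    have hFp : Fq x p p = 2 * ‖p‖ ^ 2 := by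
      unfold Fq
      rw [hxp, hpp, Complex.norm_real, Real.norm_of_nonneg hpn.le]
      field_simp
      ring
    set ℓ : ℝ := 2 * ‖p‖ ^ 2 - δ / 2 with hℓ
    obtain ⟨φ, hφ, hφK⟩ : ∃ φ, SI ρ φ ∧ ∀ z ∈ K ∩ {z | Fq x p z ≤ ℓ}, 0 < trH ρ φ z := by
      rcases (K ∩ {z | Fq x p z ≤ ℓ}).eq_empty_or_nonempty with he | hn
      · exact ⟨fun _ => 0, ⟨contDiffOn_const, fun _ _ _ => rfl⟩, fun z hz => by simp [he] at hz⟩
      · by_contra hcon
        have hks : KS ρ (K ∩ {z | Fq x p z ≤ ℓ}) := by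
          refine ⟨⟨fun h => hK.cone.1 h.1, fun c hc z hz => ⟨hK.cone.2 c hc z hz.1, ?_⟩⟩, ?_, hn,
            fun z hz => hK.bd z hz.1, fun z hz => hK.null z hz.1⟩
          · change Fq x p (c • z) ≤ ℓ
            rw [Fq_inv x p hc]
            exact hz.2
          · have : insert 0 (K ∩ {z | Fq x p z ≤ ℓ}) = insert 0 K ∩
                {z | ‖inner ℂ x z‖ ^ 2 + ‖inner ℂ p z‖ ^ 2 ≤ ℓ * ‖z‖ ^ 2} := by
              ext z
              rcases eq_or_ne z 0 with rfl | hz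
              · simp
              · have hzn : 0 < ‖z‖ ^ 2 := pow_pos (norm_pos_iff.2 hz) 2
                simp only [mem_insert_iff, hz, false_or, mem_inter_iff, mem_ofPred_eq, Fq,
                  div_le_iff₀ hzn]
            rw [this]
            exact hK.closed.inter (isClosed_le (by fun_prop) (by fun_prop))
        have h1 := hmin _ inter_subset_left hks hcon
        have h2 : p ∈ K ∩ {z | Fq x p z ≤ ℓ} := h1.symm ▸ hp
        have h3 : Fq x p p ≤ ℓ := h2.2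
        rw [hFp] at h3
        linarith
    refine glue L hρ hK hSI hφ ℓ (fun z hz hl => hφK z ⟨hz, hl⟩) (fun z hz h1 hl => ?_) hno
    by_contra hs
    have h2 := hδK z ⟨⟨Or.inr hz, by simpa using h1⟩, not_lt.1 hs⟩
    linarith
  have han : ((an ρ p : ℝ) : ℂ) ≠ 0 := by exact_mod_cast (hreg p (hR p hp)).1.ne'
  have hn2 : ((‖p‖ ^ 2 : ℝ) : ℂ) ≠ 0 := by exact_mod_cast hpn.ne'
  have h1 : ∑ k, (∑ j, conj (x j) * PP ρ p j k) * w k = 0 := by simp [hA]
  have h2 : ∀ k, (∑ j, conj (x j) * PP ρ p j k) * w k = conj (x k) * w k -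
      inner ℂ x p / ((‖p‖ ^ 2 : ℝ) : ℂ) * (conj (p k) * w k) -
      (∑ j, conj (x j) * conj (dz j (cx ρ) p)) / (an ρ p : ℝ) * (dz k (cx ρ) p * w k) := fun k => by
    have h3 : ∑ j, conj (x j) * PP ρ p j k = conj (x k) -
        inner ℂ x p / ((‖p‖ ^ 2 : ℝ) : ℂ) * conj (p k) -
        (∑ j, conj (x j) * conj (dz j (cx ρ) p)) / (an ρ p : ℝ) * dz k (cx ρ) p := by
      rw [ip_eq, Finset.sum_div, Finset.sum_div, Finset.sum_mul, Finset.sum_mul]
      simp only [PP, mul_sub, Finset.sum_sub_distrib, mul_ite, mul_one, mul_zero,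
        Finset.sum_ite_eq', Finset.mem_univ, if_true]
      congr 1
      · congr 1
        exact Finset.sum_congr rfl fun j _ => by ring
      · exact Finset.sum_congr rfl fun j _ => by ring
    rw [h3]
    ring
  rw [Finset.sum_congr rfl fun k _ => h2 k, Finset.sum_sub_distrib, Finset.sum_sub_distrib,
    ← Finset.mul_sum, ← Finset.mul_sum, ← ip_eq, ← ip_eq, hxp, div_self hn2] at h1
  have h4 : ∑ k, dz k (cx ρ) p * w k = 0 := hw
  rw [h4, mul_zero, sub_zero, one_mul, ← inner_sub_left] at h1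
  rw [inner_real, h1, Complex.zero_re]

end

end Pool.Agent.MP_fcd29e_an.H27
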